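import Pool.Agent.helper17.MK.Spec

/-! # Row mk:MW: the levels -/

set_option autoImplicit false

namespace Pool.Agent.MK

open Finset Real Pool.Agent.helper39.MT Pool.Agent.helper85.FC

theorem MW_PP (w z : ℝ) (p : ℕ) (hp : p ∈ RLS.PP w z) : p.Prime ∧ w < (p : ℝ) ∧ (p : ℝ) ≤ z := by
  unfold RLS.PP at hp
  rw [mem_filter, mem_range] at hp
  refine ⟨hp.2.1, hp.2.2, ?_⟩
  have h1 : p ≤ ⌊z⌋₊ := by omega
  exact (Nat.le_floor_iff' hp.2.1.ne_zero).1 h1

theorem MW_exp (K : Finset ℕ) (hK : ∀ p ∈ K, 0 < p) (L : ℝ)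
    (h : ∑ p ∈ K, Real.log p ≤ L) : ∏ p ∈ K, (p : ℝ) ≤ Real.exp L := by
  have h1 : Real.log (∏ p ∈ K, (p : ℝ)) = ∑ p ∈ K, Real.log p := by
    rw [Real.log_prod]
    intro p hp
    have := hK p hp
    positivity
  have h2 : 0 < ∏ p ∈ K, (p : ℝ) := Finset.prod_pos fun p hp => by
    have := hK p hp
    positivity
  rw [← h1] at h
  exact (Real.log_le_iff_le_exp h2).1 h

/-- the sum of the logarithms is at most the level -/
theorem MW_cut (b : Bool) (L : ℝ) (K : Finset ℕ) (hK : ∀ p ∈ K, p.Prime) (hL : 0 ≤ L)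
    (hl : RLS.lam b L K ≠ 0) (hb : b = false → ∀ p ∈ K, 2 * Real.log p ≤ L) :
    ∑ p ∈ K, Real.log (p : ℝ) ≤ L := by
  obtain ⟨K₁, hK₁, h1, h2⟩ := RLS.CT_all b L L 0 K (fun p hp => (hK p hp).one_le) hl hb hL le_rfl
    (by ring)
  have h3 : K \ K₁ = ∅ := by
    by_contra hne
    obtain ⟨p, hp⟩ := Finset.nonempty_iff_ne_empty.2 hne
    have h4 : 0 < ∑ p ∈ K \ K₁, Real.log (p : ℝ) := by
      refine Finset.sum_pos (fun q hq => ?_) ⟨p, hp⟩
      have h5 := (hK q (Finset.mem_sdiff.1 hq).1).one_lt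
      exact Real.log_pos (by exact_mod_cast h5)
    linarith
  have h4 : K = K₁ := by
    refine Finset.Subset.antisymm ?_ hK₁
    rwa [Finset.sdiff_eq_empty_iff_subset] at h3
  rw [h4]
  exact h1

theorem MW_fst (L w z : ℝ) (K : Finset ℕ) (hL : 0 ≤ L) (hK : K ⊆ RLS.PP w z)
    (hl : RLS.lam true L K ≠ 0) : ∏ p ∈ K, (p : ℝ) ≤ Real.exp L := by
  have hp : ∀ p ∈ K, p.Prime := fun p hp => (MW_PP w z p (hK hp)).1
  refine MW_exp K (fun p h => (hp p h).pos) L ?_
  exact MW_cut true L K hp hL hl (fun h => by cases h)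

theorem MW : MW_stmt := by
  refine ⟨MW_fst, ?_⟩
  intro L w z y K hL hz hzy hK hl
  have hpr : ∀ p ∈ K, p.Prime := fun p hp => (MW_PP w y p (hK hp)).1
  unfold lM at hl
  by_cases h1 : (∀ p ∈ K, (p : ℝ) ≤ z) ∧ RLS.lam true L K ≠ 0
  · refine MW_exp K (fun p h => (hpr p h).pos) L ?_
    exact MW_cut true L K hpr hL h1.2 (fun h => by cases h)
  · have h2 : (if ∀ p ∈ K, (p : ℝ) ≤ z then RLS.lam true L K else 0) = 0 := by
      split_ifs with h3
      · by_contra h4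
        exact h1 ⟨h3, h4⟩
      · rfl
    rw [h2] at hl
    have h3 : ∑ p ∈ K, (if z < (p : ℝ) ∧ ∀ q ∈ K.erase p, (q : ℝ) ≤ z then
        RLS.lam false (L - Real.log (p : ℝ)) (K.erase p) else 0) ≠ 0 := by
      intro h4
      rw [h4] at hl
      exact hl (by ring)
    obtain ⟨p, hp, h4⟩ := Finset.exists_ne_zero_of_sum_ne_zero h3
    by_cases h5 : z < (p : ℝ) ∧ ∀ q ∈ K.erase p, (q : ℝ) ≤ z
    · rw [if_pos h5] at h4
      have h6 := MW_PP w y p (hK hp)
      have hp0 : (0 : ℝ) < (p : ℝ) := by exact_mod_cast h6.1.pos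
      have h7 : Real.log (p : ℝ) ≤ Real.log y := Real.log_le_log hp0 h6.2.2
      have h8 : 0 ≤ Real.log z := Real.log_nonneg hz
      have h9 := MW_cut false (L - Real.log (p : ℝ)) (K.erase p)
        (fun q hq => hpr q (Finset.mem_of_mem_erase hq)) (by linarith) h4
        (fun _ q hq => by
          have h10 : Real.log (q : ℝ) ≤ Real.log z :=
            Real.log_le_log (by exact_mod_cast (hpr q (Finset.mem_of_mem_erase hq)).pos) (h5.2 q hq)
          linarith)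
      refine MW_exp K (fun p h => (hpr p h).pos) L ?_
      rw [← Finset.add_sum_erase K (fun p : ℕ => Real.log (p : ℝ)) hp]
      linarith
    · rw [if_neg h5] at h4
      exact absurd rfl h4

end Pool.Agent.MK
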